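import Pool.Agent.Helper78.MG.Goals

/-!
# Project MG: the blocks of a uniform string are independent uniform strings
-/

namespace Pool.Agent.Helper77.MG

open Pool.Agent.Helper78.DT Pool.Agent.Helper78.MG

/-- The blocks of a string. -/
theorem blk_ofFn (q N : ℕ) (ρ : Fin (N * q) → Bool) (j : Fin N) :
    blk q j (List.ofFn ρ) = List.ofFn fun l : Fin q => ρ (finProdFinEquiv (j, l)) := by
  have hj : (j : ℕ) * q + q ≤ N * q := by
    have h := Nat.mul_le_mul_right q (Nat.succ_le_of_lt j.isLt)
    rw [Nat.succ_mul] at h
    exact h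
  refine List.ext_getElem ?_ fun l h1 h2 => ?_
  · simp only [blk, List.length_take, List.length_drop, List.length_ofFn]
    omega
  · simp only [blk, List.getElem_take, List.getElem_drop, List.getElem_ofFn]
    congr 1
    ext
    simp only [finProdFinEquiv_apply_val]
    ring

/-- **BLK.** -/
theorem blkStmt : BlkStmt := by
  intro q N F
  let e : (Fin (N * q) → Bool) ≃ (Fin N → Fin q → Bool) :=
    (Equiv.arrowCongr finProdFinEquiv.symm (Equiv.refl Bool)).trans (Equiv.curry (Fin N) (Fin q) Bool)
  rw [← pr_equiv e]
  refine pr_congr fun ρ => ?_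
  have h : (fun j : Fin N => blk q j (List.ofFn ρ)) = fun j => List.ofFn (e ρ j) := by
    funext j
    rw [blk_ofFn]
    rfl
  rw [h]

end Pool.Agent.Helper77.MG
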